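import Pool.Agent.MP_f7b0aa_an.Neg

/-! Sharp threshold for surjective entire maps onto non-autonomous basins in `ℂ²` with
non-uniform lower bounds. -/

open Filter Topology Set Function
open Pool.Agent.MP_f7b0aa_an

namespace Pool.Agent.Results.MP_f7b0aa_an.Threshold

theorem result (C D : ℝ) (hCD : C < D) (hD : D < 1) (c : ℕ → ℝ) (hc : ∀ n, 0 < c n)
    (hC : ∀ n, c n ≤ C) :
    List.TFAE [
      ¬Summable fun n : ℕ => 1 / ∑ t ∈ Finset.range (n + 1), Real.log (1 / c t),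
      ∀ f, Adm c D f → ∀ p ∈ basin f, ∃ Φ : E → E, Differentiable ℂ Φ ∧ range Φ = basin f ∧
        Φ 0 = p ∧ ∃ (U V : Set E) (Ψ : E → E), IsOpen U ∧ IsOpen V ∧ 0 ∈ U ∧ BijOn Φ U V ∧
          DifferentiableOn ℂ Ψ V ∧ InvOn Ψ Φ U V,
      ∀ f, Adm c D f → ∃ Φ : E → E, Differentiable ℂ Φ ∧ range Φ ⊆ basin f ∧
        basin f ⊆ closure (range Φ),
      ∀ f, Adm c D f → ∀ p ∈ basin f, ∀ q ∈ basin f, ∃ γ : ℂ → E, Differentiable ℂ γ ∧
        range γ ⊆ basin f ∧ γ 0 = p ∧ γ 1 = q] := by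
  have hC0 : 0 < C := (hc 0).trans_le (hC 0)
  have hD0 : 0 < D := hC0.trans hCD
  have e : (Summable fun n : ℕ => 1 / ∑ t ∈ Finset.range (n + 1), Real.log (1 / c t)) ↔
      Summable fun n => 1 / S c n := summable_nat_add_iff (f := fun n => 1 / S c n) 1
  have line : ∀ x y : E, Differentiable ℂ fun l : ℂ => x + l • (y - x) := fun x y =>
    (differentiable_id.smul_const _).const_add _
  tfae_have 1 → 2 := fun h f hf p hp =>
    hf.positive hc hC (hCD.trans hD) hD0 hD (fun hs => h (e.2 hs)) hp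
  tfae_have 2 → 3 := fun h f hf => by
    obtain ⟨Φ, h1, h2, -⟩ := h f hf 0 (hf.zero_mem hc hD0.le hD)
    exact ⟨Φ, h1, h2.subset, h2.superset.trans subset_closure⟩
  tfae_have 2 → 4 := fun h f hf p hp q hq => by
    obtain ⟨Φ, h1, h2, h3, -⟩ := h f hf p hp
    obtain ⟨y, rfl⟩ := h2.superset hq
    refine ⟨fun l => Φ (0 + l • (y - 0)), h1.comp (line 0 y), ?_, by simpa using h3, by simp⟩
    rintro _ ⟨l, rfl⟩
    exact h2.subset ⟨_, rfl⟩
  tfae_have 3 → 1 := fun h hs => by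
    obtain ⟨f, hf, U, V, p, q, hU, hV, pU, qV, hp, hq, H⟩ := negative hc hC hCD hD (e.1 hs)
    obtain ⟨Φ, h1, h2, h3⟩ := h f hf
    obtain ⟨_, xU, x, rfl⟩ := mem_closure_iff.1 (h3 hp) U hU pU
    obtain ⟨_, yV, y, rfl⟩ := mem_closure_iff.1 (h3 hq) V hV qV
    exact H (fun l => Φ (x + l • (y - x))) (h1.comp (line x y)) (fun l => h2 ⟨_, rfl⟩)
      (by simpa using xU) (by simpa using yV)
  tfae_have 4 → 1 := fun h hs => by
    obtain ⟨f, hf, U, V, p, q, -, -, pU, qV, hp, hq, H⟩ := negative hc hC hCD hD (e.1 hs)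
    obtain ⟨γ, h1, h2, h3, h4⟩ := h f hf p hp q hq
    exact H γ h1 (fun l => h2 ⟨_, rfl⟩) (h3 ▸ pU) (h4 ▸ qV)
  tfae_finish

end Pool.Agent.Results.MP_f7b0aa_an.Threshold
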